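import Pool.Agent.Y998.LP.Defs
import Pool.Agent.Y998.CN.Quad

set_option autoImplicit false

/-! Project LP: return probabilities from partition functions. -/

namespace Pool.Agent.Y799.LP

open Finset Equiv Filter Topology Pool.Agent.Y998.ST Pool.Agent.Y998.CN

section

variable {V : Type} [Fintype V] [DecidableEq V]

theorem numCycles_one : numCycles (1 : Perm V) = Fintype.card V := by
  unfold numCycles
  rw [← Nat.card_eq_fintype_card]
  refine (Nat.card_congr (Equiv.ofBijective
    (Quotient.mk (Perm.SameCycle.setoid (1 : Perm V))) ⟨?_, Quotient.mk_surjective⟩)).symm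
  intro x y h
  exact Perm.sameCycle_one.1 (Quotient.exact h)

theorem numCycles_lt {g : Perm V} (hg : g ≠ 1) : numCycles g < Fintype.card V := by
  classical
  have hsurj : Function.Surjective (Quotient.mk (Perm.SameCycle.setoid g)) :=
    Quotient.mk_surjective
  have : Fintype (Quotient (Perm.SameCycle.setoid g)) := Fintype.ofFinite _
  have hle : numCycles g ≤ Fintype.card V := by
    unfold numCycles
    rw [Nat.card_eq_fintype_card]
    exact Fintype.card_le_of_surjective _ hsurj
  refine lt_of_le_of_ne hle fun heq => hg ?_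
  unfold numCycles at heq
  rw [Nat.card_eq_fintype_card] at heq
  have hb := (Fintype.bijective_iff_surjective_and_card _).2 ⟨hsurj, heq.symm⟩
  ext x
  apply hb.1
  apply Quotient.sound
  exact Perm.sameCycle_apply_left.2 (Perm.SameCycle.refl g x)

theorem ratio_tendsto (g : Perm V) :
    Tendsto (fun q : ℕ => (q : ℝ) ^ numCycles g / (q : ℝ) ^ Fintype.card V) atTop
      (𝓝 (if g = 1 then 1 else 0)) := by
  by_cases hg : g = 1
  · rw [if_pos hg, hg, numCycles_one]
    refine (tendsto_congr' ?_).2 tendsto_const_nhds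
    filter_upwards [eventually_gt_atTop 0] with q hq
    have : (q : ℝ) ≠ 0 := by exact_mod_cast hq.ne'
    exact div_self (pow_ne_zero _ this)
  · rw [if_neg hg]
    obtain ⟨m, hm⟩ := Nat.exists_eq_add_of_lt (numCycles_lt hg)
    have h1 : Tendsto (fun q : ℕ => ((q : ℝ) ^ (m + 1))⁻¹) atTop (𝓝 0) :=
      ((tendsto_pow_atTop (Nat.succ_ne_zero m)).comp tendsto_natCast_atTop_atTop).inv_tendsto_atTop
    refine (tendsto_congr' ?_).2 h1
    filter_upwards [eventually_gt_atTop 0] with q hq
    have hq0 : (q : ℝ) ≠ 0 := by exact_mod_cast hq.ne'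
    rw [hm, add_assoc, pow_add, div_mul_eq_div_div, div_self (pow_ne_zero _ hq0), one_div]

/-- the limit of the normalised trace -/
theorem lim (hTR : S_TR) (J : V → V → ℝ) (t : ℝ) :
    Tendsto (fun q : ℕ => Zf q J t / (q : ℝ) ^ Fintype.card V) atTop (𝓝 (stirLaw J t 1)) := by
  have h1 : ∀ q : ℕ, Zf q J t / (q : ℝ) ^ Fintype.card V =
      ∑ g, stirLaw J t g * ((q : ℝ) ^ numCycles g / (q : ℝ) ^ Fintype.card V) := by
    intro q
    rw [← hTR V J q t, Finset.sum_div]
    exact Finset.sum_congr rfl fun g _ => by rw [mul_div_assoc]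
  have h2 : Tendsto (fun q : ℕ => ∑ g, stirLaw J t g *
      ((q : ℝ) ^ numCycles g / (q : ℝ) ^ Fintype.card V)) atTop
      (𝓝 (∑ g, stirLaw J t g * (if g = 1 then 1 else 0))) :=
    tendsto_finsetSum _ fun g _ => (ratio_tendsto g).const_mul _
  have h3 : ∑ g, stirLaw J t g * (if g = 1 then (1 : ℝ) else 0) = stirLaw J t 1 := by
    simp
  rw [h3] at h2
  exact (tendsto_congr h1).2 h2

end

theorem t_RC (hPB : Pool.Agent.Y998.CN.S_PB) (hTR : Pool.Agent.Y998.CN.S_TR) :
    Pool.Agent.Y998.LP.S_RC := by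
  intro V _ _ J J' t ht h
  refine le_of_tendsto_of_tendsto' (lim hTR J t) (lim hTR J' t) fun q => ?_
  exact div_le_div_of_nonneg_right (Zf_le hPB (h q) ht) (by positivity)

theorem t_RF (hPR : Pool.Agent.Y998.CN.S_PR) (hTR : Pool.Agent.Y998.CN.S_TR) :
    Pool.Agent.Y998.LP.S_RF := by
  intro V I _ _ _ _ b J t h
  have hcard : Fintype.card V = ∑ i, Fintype.card {v : V // b v = i} := by
    rw [← Fintype.card_sigma]
    exact (Fintype.card_congr (Equiv.sigmaFiberEquiv b)).symm
  have h1 := lim hTR J t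
  have h2 : Tendsto (fun q : ℕ => ∏ i, (Zf q (fun x y : {v : V // b v = i} => J x y) t /
      (q : ℝ) ^ Fintype.card {v : V // b v = i})) atTop
      (𝓝 (∏ i, stirLaw (fun x y : {v : V // b v = i} => J x y) t 1)) :=
    tendsto_finsetProd _ fun i _ => lim hTR (fun x y : {v : V // b v = i} => J x y) t
  refine tendsto_nhds_unique h1 ((tendsto_congr fun q => ?_).2 h2)
  rw [Finset.prod_div_distrib, hPR V I b J q t h, Finset.prod_pow_eq_pow_sum, ← hcard]

end Pool.Agent.Y799.LP
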